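import Pool.Agent.Y442.LV.Brody

/-!
# MP_dc0411_ag: the Lang-Vojta equivalence fails in every dimension `n ≥ 2`

For every `n ≥ 2` there is a smooth integral quasi-projective variety `X` of dimension `n` over `ℂ`
(open in affine space) that is Brody hyperbolic, and a connected smooth quasi-projective curve `C`
with a point `c` such that the closed immersions `C ⟶ X` mapping `c` to one point `x` of `X` are at
least continuum many, and their images cover a dense open subset of `X`. So condition (1) of the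
problem holds and condition (3) fails for `X`.

Put `P = x₀ ∏ xᵢ (xᵢ - x₀)` (product over `i ≥ 1`) and `Q = ∏ (xᵢ² - 1)`. The variety is
`{P² ≠ 1} ∩ {P ≠ 0 or Q ≠ 0}`. An entire curve in `X` has constant `P` by Picard; if `P = 0` on it,
then all coordinates omit `1` and `-1`; otherwise the quotients `xᵢ / x₀` omit `0` and `1`. The maps
`z ↦ z v`, `P(v) = 1`, from `C = {z^(4n-2) ≠ 1}` to `X` all map `0` to the origin.
-/

set_option autoImplicit false

open AlgebraicGeometry CategoryTheory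

namespace Pool.Agent.Results.MP_dc0411_ag.EveryDimension

open Pool.Agent.H187R3.LV

theorem result (n : ℕ) (hn : 2 ≤ n) :
    ∃ (X : Scheme.{0}) (p : X ⟶ SpecC), IsQuasiProjective p ∧ IsIntegral X ∧
      SmoothOfRelativeDimension n p ∧ BrodyHyperbolic p ∧ ¬ FinitePointedMaps p ∧
      ∃ (C : Scheme.{0}) (q : C ⟶ SpecC) (c : SpecC ⟶ C) (x : SpecC ⟶ X) (U : X.Opens),
        IsSmoothCurve q ∧ c ≫ q = 𝟙 SpecC ∧ x ≫ p = 𝟙 SpecC ∧ Dense (U : Set X) ∧
        (∀ y : SpecC ⟶ X, y ≫ p = 𝟙 SpecC → ⊤ ≤ y ⁻¹ᵁ U →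
          ∃ (f : C ⟶ X) (z : SpecC ⟶ C), IsClosedImmersion f ∧ f ≫ p = q ∧ c ≫ f = x ∧
            z ≫ q = 𝟙 SpecC ∧ z ≫ f = y) ∧
        Cardinal.continuum ≤
          Cardinal.mk {f : C ⟶ X // IsClosedImmersion f ∧ f ≫ p = q ∧ c ≫ f = x} := by
  obtain ⟨m, rfl⟩ : ∃ m, n = m + 2 := ⟨n - 2, by omega⟩
  have hX : Nonempty (Y442.LV.XX m).toScheme := ⟨Y442.LV.origin m (Classical.arbitrary SpecC)⟩
  have hC : Nonempty (Y442.LV.CC m).toScheme := ⟨Y442.LV.ptC0 m (Classical.arbitrary SpecC)⟩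
  have hXi : IsIntegral (Y442.LV.XX m).toScheme := isIntegral_of_isOpenImmersion (Y442.LV.XX m).ι
  have hCi : IsIntegral (Y442.LV.CC m).toScheme := isIntegral_of_isOpenImmersion (Y442.LV.CC m).ι
  have hcurve : IsSmoothCurve ((Y442.LV.CC m).ι ≫ aa 1) :=
    ⟨inferInstance, smooth_opens 1 _, isQuasiProjective_opens 1 _⟩
  have hc : Y442.LV.ptC0 m ≫ ((Y442.LV.CC m).ι ≫ aa 1) = 𝟙 SpecC := by
    rw [← Category.assoc, Y442.LV.ptC0, Y442.LV.ptC_ι, ptA_over]
  have hx : Y442.LV.origin m ≫ ((Y442.LV.XX m).ι ≫ aa (m + 2)) = 𝟙 SpecC := by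
    rw [← Category.assoc, Y442.LV.origin_ι, ptA_over]
  have hcard : Cardinal.continuum ≤ Cardinal.mk
      {f : (Y442.LV.CC m).toScheme ⟶ (Y442.LV.XX m).toScheme // IsClosedImmersion f ∧
        f ≫ ((Y442.LV.XX m).ι ≫ aa (m + 2)) = (Y442.LV.CC m).ι ≫ aa 1 ∧
        Y442.LV.ptC0 m ≫ f = Y442.LV.origin m} := by
    have hk0 : ∀ r : ℝ, (r : ℂ) + Complex.I ≠ 0 := fun r h => by
      have := congrArg Complex.im h
      simp at this
    have hk1 : ∀ r : ℝ, (r : ℂ) + Complex.I ≠ 1 := fun r h => by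
      have := congrArg Complex.im h
      simp at this
    choose v hv hv0 hv1 using fun r : ℝ => Y442.LV.exists_v m ((r : ℂ) + Complex.I) (hk0 r) (hk1 r)
    rw [← Cardinal.mk_real]
    refine Cardinal.mk_le_of_injective (f := fun r : ℝ =>
      (⟨Y442.LV.fmap (v r) (hv r), Y442.LV.fmap_closed _ _, Y442.LV.fmap_over _ _,
        Y442.LV.ptC0_fmap _ _⟩ : {f : (Y442.LV.CC m).toScheme ⟶ (Y442.LV.XX m).toScheme //
          IsClosedImmersion f ∧
          f ≫ ((Y442.LV.XX m).ι ≫ aa (m + 2)) = (Y442.LV.CC m).ι ≫ aa 1 ∧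
          Y442.LV.ptC0 m ≫ f = Y442.LV.origin m})) ?_
    intro r s h
    have h1 : v r = v s := Y442.LV.fmap_injective (hv := hv r) (hv' := hv s)
      (congrArg Subtype.val h)
    have h2 := hv1 r
    rw [h1, hv1 s] at h2
    have h3 := mul_right_cancel₀ (hv0 s) h2
    have h4 : (s : ℂ) = r := by linear_combination h3
    exact_mod_cast h4.symm
  refine ⟨(Y442.LV.XX m).toScheme, (Y442.LV.XX m).ι ≫ aa (m + 2), isQuasiProjective_opens _ _, hXi,
    smooth_opens _ _, Y442.LV.brody_XX m, fun h => ?_, (Y442.LV.CC m).toScheme,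
    (Y442.LV.CC m).ι ≫ aa 1, Y442.LV.ptC0 m, Y442.LV.origin m, Y442.LV.UU m, hcurve, hc, hx, ?_,
    ?_, hcard⟩
  · have hfin := h _ _ hcurve _ _ hc hx
    have h1 : Cardinal.mk {f : (Y442.LV.CC m).toScheme ⟶ (Y442.LV.XX m).toScheme //
        IsClosedImmersion f ∧ f ≫ ((Y442.LV.XX m).ι ≫ aa (m + 2)) = (Y442.LV.CC m).ι ≫ aa 1 ∧
        Y442.LV.ptC0 m ≫ f = Y442.LV.origin m} < Cardinal.aleph0 := by
      rw [Cardinal.lt_aleph0_iff_finite]
      exact (hfin.subset (fun f (hf : IsClosedImmersion f ∧ _ ∧ _) => hf.2)).to_subtype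
    exact absurd (hcard.trans h1.le) (not_le.2 Cardinal.aleph0_lt_continuum)
  · obtain ⟨v, hv, -, -⟩ := Y442.LV.exists_v m 2 (by norm_num) (by norm_num)
    obtain ⟨y0⟩ : Nonempty SpecC := inferInstance
    refine (Y442.LV.UU m).isOpen.dense ⟨(Y442.LV.ptC 2 (Y442.LV.two_pow_ne m) ≫
      Y442.LV.fmap v hv) y0, ?_⟩
    show ((Y442.LV.ptC 2 (Y442.LV.two_pow_ne m) ≫ Y442.LV.fmap v hv) ≫ (Y442.LV.XX m).ι) y0 ∈
      PrimeSpectrum.basicOpen (Y442.LV.PP m)
    rw [Y442.LV.ptC_fmap_ι]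
    unfold ptA
    change Y442.LV.PP m ∉ _
    rw [mem_specMap, mem_pt, Y442.LV.eval_PP, Y442.LV.pval_smul, hv, mul_one]
    exact pow_ne_zero _ two_ne_zero
  · intro y hy hyU
    obtain ⟨v, hv, z, hz, h⟩ := Y442.LV.cover y hy (Y442.LV.mem_UU y hy hyU)
    refine ⟨Y442.LV.fmap v hv, Y442.LV.ptC z hz, Y442.LV.fmap_closed v hv, Y442.LV.fmap_over _ _,
      Y442.LV.ptC0_fmap _ _, ?_, h⟩
    rw [← Category.assoc, Y442.LV.ptC_ι, ptA_over]

end Pool.Agent.Results.MP_dc0411_ag.EveryDimension
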