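import Pool.Agent.Y174.HY.T6

/-!
MP_dc0411_ag, Q1, (1) implies (2): the subvarieties which are not of log general type and semi-abelian
varieties, for varieties whose logarithmic symmetric differentials have no common zeros.
-/

set_option autoImplicit false

open AlgebraicGeometry CategoryTheory FF Pool.Agent.W619.PQ Pool.Agent.W619.TW Pool.Agent.W619.Y
  Pool.Agent.Y174

namespace Pool.Agent.Results.MP_dc0411_ag.LogSymmetricDifferentials

/-- Let `X` be a scheme over the algebraically closed field `k` of characteristic zero, for instance
a smooth complex quasi-projective variety, and `Ξ` a subset of `X`, for instance a closed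
subset, such that the logarithmic symmetric differentials of positive degrees on `X` have no common
zeros among the nonzero tangent vectors of `X` at points outside `Ξ`. Let `Z` be a closed subvariety
of `X` of dimension `n` which is not contained in `Ξ`, with function field `K`; the point `y` with
values in `K` is its generic point. Then the logarithmic Kodaira dimension of `Z` is at least `0`. Let
`Z → W` be a fibration with `dim W = d < n`, for instance the logarithmic Iitaka fibration if `Z` is not
of log general type, `L` the function field of `W`, `Λ` its algebraic closure and `F` the function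
field of the geometric generic fibre over `Λ`. If the logarithmic Kodaira dimension of the geometric
generic fibre is at most `0`, then it has a finite Galois cover with `r + 1 = dim F` linearly
independent logarithmic 1-forms and of logarithmic Kodaira dimension `0`; so it is birational to a
semi-abelian variety (Kawamata). -/
theorem result {k : Type} [Field k] [IsAlgClosed k] [CharZero k] {X : Scheme.{0}}
    (f : X ⟶ Spec (.of k)) {Ξ : Set X} (hX : HY.NoCommonZerosLog f Ξ)
    -- the subvariety `Z`
    {K : Type} [Field K] [Algebra k K] [Algebra.EssFiniteType k K] {n : ℕ}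
    (hn : Algebra.trdeg k K = n) (y : HY.Pt f K) [Mono y.1] (hy : ∀ p, y.1 p ∉ Ξ) :
    PairKod k K n (HY.redBd (HY.AtInf y)) 0 ∧
    ∀ (L Λ F : Type) [Field L] [Field Λ] [Field F] [Algebra k L] [Algebra L K]
      [IsScalarTower k L K] [Algebra L Λ] [IsAlgClosure L Λ] [Algebra Λ F] [Algebra K F]
      [Algebra L F] [IsScalarTower L Λ F] [IsScalarTower L K F] [Algebra k Λ] [Algebra k F]
      [IsScalarTower k L Λ] [IsScalarTower k Λ F] [IsScalarTower k K F] (d r : ℕ),
      Algebra.trdeg k L = d → n = d + (r + 1) →
      IntermediateField.adjoin Λ (Set.range (algebraMap K F)) = ⊤ →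
      ¬ PairKod Λ F (r + 1) (HY.redBd (BdFib (HY.AtInf y))) 1 →
      HY.HasLogAlbCover Λ (r + 1) (BdFib (HY.AtInf y) : Place Λ F → Prop) :=
  ⟨HY.kod_nonneg_log hX ‹Algebra.EssFiniteType k K› hn y hy, fun _ _ _ => by
    intros
    exact HY.main_log hX ‹Algebra.EssFiniteType k K› hn y hy ‹_› ‹_› ‹_› ‹_›⟩

end Pool.Agent.Results.MP_dc0411_ag.LogSymmetricDifferentials
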