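import Pool.Agent.Y191.Five
import Pool.Agent.Y191.Final1

/-!
MP_dc0411_ag, Q1: the Lang-Vojta conjecture for complements in quasi-projective varieties
over projective space which are ramified, possibly with small multiplicities, over many hyperplanes
in general position.
-/

set_option autoImplicit false

open MvPolynomial Pool.Agent.W602.Cov.R Pool.Agent.W602.GT
open Pool.Agent.TH152.HY Pool.Agent.TH152.DS Pool.Agent.Y191

namespace Pool.Agent.Results.MP_dc0411_ag.SmallMultiplicityCovers

/-- Let the `ℓ i`, `i < q`, define hyperplanes of `P^n` in general position such that the points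
`ℓ i` impose independent conditions on the forms of degree `d`, and let the sum of the weights
`wt i` in `[0, 1]` be greater than `2 * (n + d - 1).choose (n - 1)`. There is `R > 0` such that for
all quasi-projective varieties `X - D` of positive dimension with a morphism to `P^n` which is
generically finite over its image, ramified over the hyperplanes with the weights, and not over one
of the hyperplanes:

(1) `X - D` is of log general type,

and there is a proper closed subset `G = 0`, pulled back from `P^n`, such that

(2) all closed subvarieties `Z` of `X - D` of positive dimension which are not contained in `G = 0`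
are of log general type; moreover `R (K_Z + D_Z) - H'` is effective, with `H'` the pull-back of the
hyperplane class of `P^n`;
(3) all holomorphic maps from the punctured disc to `X - D` whose image is not contained in `G = 0`
extend to the disc;
(4) all nonconstant entire curves in `X - D` lie in `G = 0`;
(5) all nonconstant meromorphic maps from the spaces `ℂ ^ g` which are holomorphic maps to `X - D`
outside a set of codimension at least two (for instance those given by rational maps from
semi-abelian varieties) have their image in `G = 0`.

If `s > 0`, `2 * n ≤ K * s` and `(n + K).choose n < q`, then there is `d` such that general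
arrangements satisfy the two conditions and `2 * (n + d - 1).choose (n - 1) < q * s`. -/
theorem result {n q : ℕ} (hn : 1 ≤ n) :
    (∀ (d : ℕ) (ℓ : Fin q → Fin (n + 1) → ℂ) (wt : Fin q → ℝ), Independent d ℓ →
      GeneralPosition ℓ → (∀ i, 0 ≤ wt i ∧ wt i ≤ 1) →
      (2 * (n + d - 1).choose (n - 1) : ℕ) < ∑ i, wt i →
      ∃ R : ℕ, 0 < R ∧ ∀ (N : ℕ) (X D : BiSet N n), RamifiedWt X D ℓ wt →
        ∀ (K : Type) [Field K] [Algebra ℂ K] (a : Fin (N + 1) → K) (b : Fin (n + 1) → K) (t : ℕ),
        X.FunctionField K a b → ¬ D.Mem a b → (∀ i, lf (ℓ i) b ≠ 0) →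
        Algebra.IsAlgebraic
          (IntermediateField.adjoin ℂ {f : K | ∃ i j, b j ≠ 0 ∧ f = b i / b j}) K →
        Algebra.trdeg ℂ K = t → 0 < t →
        LogGeneralType ℂ K t (CentreIn D a b) ∧
        ∃ (G : BiPoly N n) (E : ℕ), BiHom G 0 E ∧
          (∃ u v, QMem X D u v ∧ eval (Sum.elim u v) G ≠ 0) ∧
          LangOff X D G ∧ UniformOverPn X D G R ∧ PicardOff X D G ∧ BrodyOff X D G ∧
          SemiAbelianOff X D G) ∧
    (∀ (K : ℕ) (s : ℝ), 0 < s → 2 * n ≤ K * s → (n + K).choose n < q →
      ∃ d : ℕ, (2 * (n + d - 1).choose (n - 1) : ℕ) < q * s ∧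
        ∃ Ψ : MvPolynomial (Fin q × Fin (n + 1)) ℂ, Ψ ≠ 0 ∧
          ∀ ℓ : Fin q → Fin (n + 1) → ℂ, eval (fun x => ℓ x.1 x.2) Ψ ≠ 0 →
            Independent d ℓ ∧ GeneralPosition ℓ) :=
  ⟨fun _ _ _ hI hg hwt hlt => main_five hn hI hg (fun i => (hwt i).1) (fun i => (hwt i).2) hlt,
    fun _ _ hs hK hq => general_arrangements hn hs hK hq⟩

end Pool.Agent.Results.MP_dc0411_ag.SmallMultiplicityCovers
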